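import Pool.Agent.H487.GP.Stm
import Pool.Agent.H358.GA.Cdf

set_option autoImplicit false

/-!
# `S_CDF2` from `S_LEV2`, `S_MAINY`, `S_GAD` (helper600; model: `Pool/Agent/H358/GA/Cdf.lean`)
-/

open Finset Complex Filter Topology Metric Set MeasureTheory

namespace Pool.Agent.H600.GP

open Pool.Agent.H487.GA Pool.Agent.H487.GP Pool.Agent.H358.GA

noncomputable section

theorem vv_pos {v : ℝ} (hv : v ≠ 0) : 0 < vv v := by
  unfold vv
  have h0 : 0 < v ^ 2 := by positivity
  have h1 : 0 < Real.log (1 + v ^ 2 / 4) := Real.log_pos (by linarith)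
  linarith

theorem law_eq (T : ℝ) (X : ℝ → ℝ) : law T X = (cdfNu T).map X := rfl

theorem cdf2_proof (h1 : S_LEV2) (h2 : Pool.Agent.H487.GA.S_MAINY) (h3 : S_GAD) : S_CDF2 := by
  intro v hv ε hε
  obtain ⟨V1, hV1, hA1⟩ := h3 v hv 1
  obtain ⟨δ₁, K₁, hδ₁, hK₁, hA⟩ := hA1 1 one_pos
  -- regularity
  have hC2c : ∀ r L : ℝ, 0 < r → r ≤ δ₁ → K₁ ≤ r * L → C2c (Gv v r) := by
    intro r L hr hr1 hrL
    have hAd := (hA r L hr hr1 hrL).1.c2
    simpa using hAd
  have hmeas : ∀ T : ℝ, 10 ≤ T → ∀ r : ℝ, 0 < r → r ≤ δ₁ → K₁ ≤ r * Real.log T →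
      AEMeasurable (XF (Gv v r) T) (volume.restrict (Icc T (2 * T))) := by
    intro T hT r hr hr1 hrL
    exact (cdf_XF_contOn (hC2c r _ hr hr1 hrL) (by linarith)).aemeasurable measurableSet_Icc
  have hmeas' : ∀ T : ℝ, 10 ≤ T → ∀ r : ℝ, 0 < r → r ≤ δ₁ → K₁ ≤ r * Real.log T →
      AEMeasurable (XF (Gv v r) T) (cdfNu T) := by
    intro T hT r hr hr1 hrL
    unfold cdfNu
    exact (hmeas T hT r hr hr1 hrL).smul_measure _
  have hprob : ∀ T : ℝ, 10 ≤ T → ∀ r : ℝ, 0 < r → r ≤ δ₁ → K₁ ≤ r * Real.log T →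
      IsProbabilityMeasure (law T (XF (Gv v r) T)) := by
    intro T hT r hr hr1 hrL
    rw [law_eq]
    have := cdfNu_prob (T := T) (by linarith)
    exact Measure.isProbabilityMeasure_map (hmeas' T hT r hr hr1 hrL)
  have hn0 : ∀ n : ℕ, (0:ℝ) ≤ n := fun n => Nat.cast_nonneg n
  have hclose : ∃ N : ℕ, ∀ T : ℝ, (N : ℝ) + 10 ≤ T → ∀ r : ℝ, 0 < r →
      max K₁ ((N : ℝ) + 1) ≤ r * Real.log T → r ≤ min δ₁ (1 / ((N : ℝ) + 1)) →
      ∀ a : ℝ, |(law T (XF (Gv v r) T)).real (Set.Iic a) - (nu v).real (Set.Iic a)| ≤ ε := by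
    by_contra hcon
    push Not at hcon
    choose T hT r hr0 hr1 hr2 a hbad using hcon
    have hTpos : ∀ n, 0 < T n := fun n => by linarith [hT n, hn0 n]
    have hT10 : ∀ n, 10 ≤ T n := fun n => by linarith [hT n, hn0 n]
    have hr2' : ∀ n, r n ≤ δ₁ := fun n => (hr2 n).trans (min_le_left _ _)
    have hr1' : ∀ n, K₁ ≤ r n * Real.log (T n) := fun n => (le_max_left _ _).trans (hr1 n)
    have hm : ∀ n, AEMeasurable (XF (Gv v (r n)) (T n)) (cdfNu (T n)) := fun n =>
      hmeas' _ (hT10 n) _ (hr0 n) (hr2' n) (hr1' n)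
    have hTt : Tendsto T atTop atTop := by
      apply tendsto_atTop_mono (f := fun n : ℕ => (n : ℝ))
      · intro n; linarith [hT n]
      · exact tendsto_natCast_atTop_atTop
    have hrt : Tendsto r atTop (𝓝 0) := by
      refine squeeze_zero (fun n => (hr0 n).le) (fun n => (hr2 n).trans (min_le_right _ _))
        tendsto_one_div_add_atTop_nhds_zero_nat
    have hrLt : Tendsto (fun n => r n * Real.log (T n)) atTop atTop := by
      apply tendsto_atTop_mono (f := fun n : ℕ => (n : ℝ))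
      · intro n
        have := (le_max_right K₁ ((n : ℝ) + 1)).trans (hr1 n)
        linarith
      · exact tendsto_natCast_atTop_atTop
    have hs0 : (vv v).toNNReal ≠ 0 := by
      have := vv_pos hv
      exact (Real.toNNReal_pos.2 this).ne'
    have hlev := h1 (vv v).toNNReal hs0 (fun n => law (T n) (XF (Gv v (r n)) (T n)))
      (fun n => hprob _ (hT10 n) _ (hr0 n) (hr2' n) (hr1' n)) (fun u => ?_) ε hε
    · -- conclusion
      rw [eventually_atTop] at hlev
      obtain ⟨N, hN⟩ := hlev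
      have h5 := hN N le_rfl (a N)
      have h6 := hbad N
      unfold nu at h6
      exact absurd h5 (not_le.2 h6)
    · -- characteristic functions
      obtain ⟨V, hV, hK⟩ := h3 v hv u
      have hsg : Tendsto (fun n => sg (fun x => u * Gv v (r n) x)) atTop (𝓝 (u ^ 2 * vv v)) := by
        rw [Metric.tendsto_atTop]
        intro e he
        obtain ⟨δ, K, hδ, hK1, hK2⟩ := hK (e / 2) (by positivity)
        have e1 := (hrt.eventually_lt_const hδ).and (hrLt.eventually_ge_atTop K)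
        rw [eventually_atTop] at e1
        obtain ⟨N, hN⟩ := e1
        refine ⟨N, fun n hn => ?_⟩
        have := (hK2 (r n) (Real.log (T n)) (hr0 n) (hN n hn).1.le (hN n hn).2).2
        rw [Real.dist_eq]
        linarith
      have hlim : Tendsto (fun n => cexp (-(sg (fun x => u * Gv v (r n) x) : ℂ) / 2)) atTop
          (𝓝 (cexp (-(((vv v).toNNReal : ℝ) : ℂ) * (u : ℂ) ^ 2 / 2))) := by
        have h5 : Continuous fun s : ℝ => cexp (-(s : ℂ) / 2) := by fun_prop
        have h6 := (h5.tendsto (u ^ 2 * vv v)).comp hsg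
        have h7 : cexp (-((u ^ 2 * vv v : ℝ) : ℂ) / 2) =
            cexp (-(((vv v).toNNReal : ℝ) : ℂ) * (u : ℂ) ^ 2 / 2) := by
          rw [Real.coe_toNNReal _ (vv_pos hv).le]
          congr 1
          push_cast
          ring
        rw [h7] at h6
        exact h6
      have hdiff : Tendsto (fun n => charFun (law (T n) (XF (Gv v (r n)) (T n))) u -
          cexp (-(sg (fun x => u * Gv v (r n) x) : ℂ) / 2)) atTop (𝓝 0) := by
        rw [Metric.tendsto_atTop]
        intro e he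
        obtain ⟨η, T0, hη, _, hT0, hM⟩ := h2 V (e / 2) hV (by positivity)
        obtain ⟨δ, K, hδ, hK1, hK2⟩ := hK η hη
        have e1 := ((hrt.eventually_lt_const hδ).and (hrLt.eventually_ge_atTop K)).and
          (hTt.eventually_ge_atTop T0)
        rw [eventually_atTop] at e1
        obtain ⟨N, hN⟩ := e1
        refine ⟨N, fun n hn => ?_⟩
        obtain ⟨⟨hn1, hn2⟩, hn3⟩ := hN n hn
        have h5 := (hK2 (r n) (Real.log (T n)) (hr0 n) hn1.le hn2).1
        have h6 := hM (T n) hn3 _ h5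
        rw [dist_zero_right, law_eq, cdf_char (hTpos n) _ (hm n)]
        have h7 : (∫ t in (T n)..(2 * T n), cexp (I * ((u * XF (Gv v (r n)) (T n) t : ℝ) : ℂ))) =
            ∫ t in (T n)..(2 * T n), cexp (I * (XF (fun x => u * Gv v (r n) x) (T n) t : ℂ)) := by
          simp only [cdf_XF_smul]
        rw [h7]
        linarith
      have := hdiff.add hlim
      simpa using this
  obtain ⟨N, hN⟩ := hclose
  refine ⟨max K₁ ((N : ℝ) + 1), min δ₁ (1 / ((N : ℝ) + 1)), (N : ℝ) + 10, hK₁.trans (le_max_left _ _),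
    lt_min hδ₁ (by have := hn0 N; positivity), by linarith [hn0 N], fun T hT r hr0 hr1 hr2 => ?_⟩
  have hT10 : 10 ≤ T := by linarith [hn0 N]
  have hr2' : r ≤ δ₁ := hr2.trans (min_le_left _ _)
  have hr1' : K₁ ≤ r * Real.log T := (le_max_left _ _).trans hr1
  exact ⟨hmeas T hT10 r hr0 hr2' hr1', hprob T hT10 r hr0 hr2' hr1', hN T hT r hr0 hr1 hr2⟩

end

end Pool.Agent.H600.GP
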